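import Pool.Agent.Q296.BF.Loc
import Pool.Agent.Q52.SecX.Irr

/-!
# Zero-cycles of degree one on 100% of the surfaces `a F(x, y) = G(z, w)`

Let `K` be a number field, `n ≥ 3`, and let `F`, `G` be two binary forms of degree `n` and `a` an
integer of `K`.  The equation

  `a F(x, y) = G(z, w)`

defines a surface of degree `n` in `ℙ³`, smooth if `a ≠ 0` and `F`, `G` are separable: a cubic surface
for `n = 3`, a K3 surface for `n = 4`, a surface of general type for `n ≥ 5`.  The question whether the
Brauer-Manin obstruction to zero-cycles of degree one is the only one is open for these surfaces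
already for `n = 3`.

We prove that for 100% of these surfaces there are arbitrarily many primes `v` of `K` such that the
index of the surface over `K_v` is `n`, the largest value that is possible for a surface of degree `n`:
all points over finite extensions `E` of the completion `K_v` have degree `[E : K_v]` divisible by `n`,
for composite `n` too.  So there are no families of local zero-cycles of degree one (nor of any degree
that is not divisible by `n`), and the statement of Q1 is true for 100% of these surfaces.

We treat finitely many forms at the same time: for vectors `y = (a, F_1, …, F_r)` of integers of `K`,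
where `F_i` stands for the `d_i + 1` coefficients of a binary form of degree `d_i ≥ 3`, outside a set
of density zero, `a ≠ 0`, all the `F_i` are irreducible over `K`, and there are `M` primes `v` of `K`
such that for all `i` and `j` the number `gcd(d_i, d_j)` divides `[E : K_v]` for all the finite
extensions `E` of `K_v` over which `a F_i(x, y) = F_j(z, w)` has a nonzero solution.  For
`d_i = d_j = n` this is the surface of degree `n` in `ℙ³`; for `d_i ≠ d_j` a surface in a weighted
projective space.

Density zero is meant in the strong sense: for every `ε > 0` there is an ideal `I ≠ 0` of the ring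
of integers `R` such that the exceptional vectors lie in at most `ε #(R/I) ^ N` residue classes
modulo `I`, where `N = 1 + ∑ (d_i + 1)` is the number of coefficients.

Proof.  Let `v` be a prime such that `a` is divisible by `v` exactly once and all `F_i(x, 1)` are
irreducible of degree `d_i` modulo `v`.  The proportion of these vectors is at least
`(1/N v - 1/(N v)²) ∏ 1/(4 d_i)`.  The sum of the `1/N v` diverges, so almost all vectors have this
property for `M` primes `v`.  Let `E` be an extension of `K_v` of degree not divisible by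
`g = gcd(d_i, d_j)`; its ramification index `e` and its residue degree `f` are not divisible by `g`.
So the reductions of `F_i` and `F_j` have no zero over the residue field of `E` (a zero of an irreducible
form of degree `d` generates an extension of degree `d`, and `g` does not divide `f`), and all their
values at nonzero elements of `E²` have valuation divisible by `g`, but the valuation of `a` is `e`.
-/

open Polynomial NumberField IsDedekindDomain

namespace Pool.Agent.Results.MP_1ad228_nt.BinaryFormSurfaces

/-- the index set of the coefficients of `(a, F_1, …, F_r)`, `deg F_i = d i`: `none` for `a`, and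
`some ⟨i, l⟩` for the coefficient of `x ^ l t ^ (d i - l)` in the binary form `F_i` -/
abbrev Idx {r : ℕ} (d : Fin r → ℕ) : Type := Option (Σ i : Fin r, Fin (d i + 1))

/-- the polynomial `F_i(x, 1)` of the vector `y` -/
noncomputable def poly {K : Type} [Field K] [NumberField K] {r : ℕ} {d : Fin r → ℕ}
    (y : Idx d → 𝓞 K) (i : Fin r) : K[X] :=
  ∑ l : Fin (d i + 1), C (algebraMap (𝓞 K) K (y (some ⟨i, l⟩))) * X ^ (l : ℕ)

/-- the value `F_i(x, t)` in the field `E`, where `φ : K → E` -/
noncomputable def form {K E : Type} [Field K] [NumberField K] [Field E] {r : ℕ} {d : Fin r → ℕ}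
    (y : Idx d → 𝓞 K) (φ : K →+* E) (i : Fin r) (x t : E) : E :=
  ∑ l : Fin (d i + 1), φ (algebraMap (𝓞 K) K (y (some ⟨i, l⟩))) * x ^ (l : ℕ) * t ^ (d i - l)

/-- the surface `a F_i(x, t) = F_j(z, w)` has a point over `E`, where `φ : K → E`: the equation has
a nonzero solution in `E` -/
def HasPoint {K E : Type} [Field K] [NumberField K] [Field E] {r : ℕ} {d : Fin r → ℕ}
    (y : Idx d → 𝓞 K) (φ : K →+* E) (i j : Fin r) : Prop :=
  ∃ x t z w : E, (x ≠ 0 ∨ t ≠ 0 ∨ z ≠ 0 ∨ w ≠ 0) ∧
    φ (algebraMap (𝓞 K) K (y none)) * form y φ i x t = form y φ j z w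

/-- for all finite extensions `E` of the completion `K_v` over which the surface
`a F_i(x, t) = F_j(z, w)` has a point, the degree `[E : K_v]` is divisible by `g` -/
def LocalDegreesDivisible {K : Type} [Field K] [NumberField K] (g : ℕ) {r : ℕ} {d : Fin r → ℕ}
    (y : Idx d → 𝓞 K) (i j : Fin r) (v : HeightOneSpectrum (𝓞 K)) : Prop :=
  ∀ (E : Type) [Field E] [Algebra (v.adicCompletion K) E]
    [FiniteDimensional (v.adicCompletion K) E],
    HasPoint y ((algebraMap (v.adicCompletion K) E).comp (algebraMap K (v.adicCompletion K))) i j →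
      g ∣ Module.finrank (v.adicCompletion K) E

/-- the exceptional vectors -/
def Exceptional (K : Type) [Field K] [NumberField K] {r : ℕ} (d : Fin r → ℕ) (M : ℕ) :
    Set (Idx d → 𝓞 K) :=
  {y | ¬ (y none ≠ 0 ∧ (∀ i, (poly y i).natDegree = d i ∧ Irreducible (poly y i)) ∧
    ∃ T : Finset (HeightOneSpectrum (𝓞 K)), M ≤ T.card ∧ ∀ v ∈ T, ∀ i j : Fin r,
      LocalDegreesDivisible (Nat.gcd (d i) (d j)) y i j v)}

/-- for every `ε > 0` the set `S` of vectors lies in at most `ε #(R/I) ^ |ι|` residue classes modulo
some nonzero ideal `I` of the ring of integers `R` of `K` -/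
def DensityZero {K ι : Type} [Field K] [NumberField K] [Fintype ι] (S : Set (ι → 𝓞 K)) : Prop :=
  ∀ ε : ℝ, 0 < ε → ∃ I : Ideal (𝓞 K), I ≠ ⊥ ∧ Finite (𝓞 K ⧸ I) ∧
    (Set.ncard ((fun (y : ι → 𝓞 K) i => Ideal.Quotient.mk I (y i)) '' S) : ℝ) ≤
      ε * (Nat.card (𝓞 K ⧸ I) : ℝ) ^ (Fintype.card ι)

theorem result (K : Type) [Field K] [NumberField K] (r : ℕ) (d : Fin r → ℕ) (hd : ∀ i, 3 ≤ d i)
    (M : ℕ) : DensityZero (Exceptional K d M) := by
  classical
  intro ε hε
  obtain ⟨I, hI, hfin, hcard⟩ := Pool.Agent.Q52.SecY.many_good (K := K) d hd (M + 1) ε hε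
  refine ⟨I, hI, hfin, le_trans ?_ hcard⟩
  have hsub : Exceptional K d M ⊆
      {y : Pool.Agent.Q52.SecY.Idx d → 𝓞 K | ¬ ∃ T : Finset (HeightOneSpectrum (𝓞 K)),
        T.card = M + 1 ∧ ∀ v ∈ T, (fun o => Ideal.Quotient.mk (v.asIdeal ^ 2) (y o)) ∈
          Pool.Agent.Q52.SecY.GoodM v d} := by
    intro y hy
    rintro ⟨T, hTc, hT⟩
    apply hy
    obtain ⟨v₀, hv₀⟩ : T.Nonempty := by
      rw [← Finset.card_pos, hTc]
      omega
    obtain ⟨h1, h2, h3⟩ := Pool.Agent.Q52.SecY.good_iff' v₀ d y (hT v₀ hv₀)
    have hinj : Function.Injective (algebraMap (𝓞 K) K) := IsFractionRing.injective (𝓞 K) K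
    have ha0 : y none ≠ 0 := by
      intro h
      apply h2
      rw [h]
      exact zero_mem _
    have hlast : ∀ i, y (some ⟨i, Fin.last (d i)⟩) ≠ 0 := by
      intro i h
      apply (h3 i).1
      rw [h]
      exact zero_mem _
    have hpoly : ∀ i, poly y i = Pool.Agent.TH377.Sup.pol
        (fun j => algebraMap (𝓞 K) K (y (some ⟨i, j⟩))) := fun i => rfl
    refine ⟨ha0, fun i => ⟨?_, ?_⟩, T, by omega, ?_⟩
    · rw [hpoly]
      apply Pool.Agent.TH377.Sup.pol_natDegree
      rw [Ne, map_eq_zero_iff _ hinj]
      exact hlast i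
    · rw [hpoly, ← Pool.Agent.TH377.Sup.pol_map]
      refine Pool.Agent.Q52.SecX.irr_of_red v₀ (Pool.Agent.TH377.Sup.pol
        fun j => y (some ⟨i, j⟩)) ?_ (h3 i).2
      rw [Pool.Agent.TH377.Sup.pol_leadingCoeff (fun j => y (some ⟨i, j⟩)) (hlast i)]
      exact (h3 i).1
    · intro v hv i j E _ _ _ hpt
      obtain ⟨x, t, z, w, hne, heq⟩ := hpt
      by_contra hcon
      obtain ⟨H, -, haH, hF⟩ := Pool.Agent.Q296.BF.compl_subgroup v d y (hT v hv)
        (Nat.gcd (d i) (d j)) E hcon
      set φ : K →+* E := (algebraMap (v.adicCompletion K) E).comp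
        (algebraMap K (v.adicCompletion K)) with hφ
      have hform : ∀ (k : Fin r) (p q : E), form y φ k p q =
          Pool.Agent.Q296.BF.hval (fun l => algebraMap (v.adicCompletion K) E
            (algebraMap K (v.adicCompletion K) (algebraMap (𝓞 K) K (y (some ⟨k, l⟩))))) p q :=
        fun k p q => rfl
      have hform0 : ∀ k : Fin r, form y φ k 0 0 = 0 := by
        intro k
        apply Finset.sum_eq_zero
        intro l _
        by_cases hl : (l : ℕ) = 0
        · have : d k - (l : ℕ) ≠ 0 := by
            have := hd k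
            omega
          rw [zero_pow this, mul_zero]
        · rw [zero_pow hl, mul_zero, zero_mul]
      have hφa : φ (algebraMap (𝓞 K) K (y none)) ≠ 0 := by
        rw [Ne, map_eq_zero_iff _ φ.injective, map_eq_zero_iff _ hinj]
        exact ha0
      have hnz : ∀ k : Fin r, Nat.gcd (d i) (d j) ∣ d k → ∀ p q : E, (p ≠ 0 ∨ q ≠ 0) →
          ∃ u : Eˣ, u ∈ H ∧ (u : E) = form y φ k p q := by
        intro k hk p q hpq
        rw [hform]
        exact hF k hk p q hpq
      by_cases h1 : x ≠ 0 ∨ t ≠ 0
      · obtain ⟨u, huH, hu⟩ := hnz i (Nat.gcd_dvd_left _ _) x t h1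
        have h2 : z ≠ 0 ∨ w ≠ 0 := by
          by_contra h
          push Not at h
          rw [h.1, h.2, hform0, ← hu] at heq
          exact mul_ne_zero hφa u.ne_zero heq
        obtain ⟨u', huH', hu'⟩ := hnz j (Nat.gcd_dvd_right _ _) z w h2
        rw [← hu, ← hu'] at heq
        refine haH (u' * u⁻¹) ?_ (H.mul_mem huH' (H.inv_mem huH))
        rw [Units.val_mul, ← heq, mul_assoc, Units.mul_inv, mul_one]
        rfl
      · push Not at h1
        have h2 : z ≠ 0 ∨ w ≠ 0 := by
          rcases hne with h | h | h | h
          · exact absurd h1.1 h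
          · exact absurd h1.2 h
          · exact Or.inl h
          · exact Or.inr h
        obtain ⟨u', -, hu'⟩ := hnz j (Nat.gcd_dvd_right _ _) z w h2
        rw [h1.1, h1.2, hform0, mul_zero, ← hu'] at heq
        exact u'.ne_zero heq.symm
  have := Set.ncard_le_ncard (Set.image_mono (f := fun (y : Idx d → 𝓞 K) i =>
    Ideal.Quotient.mk I (y i)) hsub) (Set.toFinite _)
  exact_mod_cast this

end Pool.Agent.Results.MP_1ad228_nt.BinaryFormSurfaces
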