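import Pool.Agent.Q49.TL.Tk
import Pool.Agent.Q49.TL.Idx
import Pool.Agent.Q177.TL.Line
import Pool.Agent.Q177.TL.Alg
import Pool.Agent.Q146.TL.Tr
import Pool.Agent.Q146.TL.Cst

set_option autoImplicit false

/-!
# Zero-cycles of degree one on weighted complete intersections over global function fields

Let `k` be a global function field and `(a)_ℓ = ℓ ^ (a.factorization ℓ)` the `ℓ`-part of `a`. Let
`f_j` be weighted homogeneous polynomials over `k` of degrees `e_j > 0` in variables of weights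
`w_i > 0`.

(1) If `ℓ` is a prime number with `∑ e_j (e_j)_ℓ < ∑ w_i (w_i)_ℓ`, then the system `f_j = 0` has a
nontrivial zero over a finite extension of `k` of degree prime to `ℓ`.

(2) If this inequality holds for all `ℓ`, then the variety `f = 0` has index one.

For a hypersurface of degree `d` in `ℙⁿ` the condition is `d q ≤ n` for all prime powers `q` which
divide `d`; for `d = 6` this is `18 ≤ n`. The theorem of Lang and Nagata requires `d ^ 2 ≤ n`.

The main step is a theorem of Chevalley at the prime `ℓ`. Let `κ` be an algebraic extension of a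
finite field, all of whose finite extensions have degree a power of `ℓ`. A weighted system over
`κ` with `∑ (e_j)_ℓ < ∑ (w_i)_ℓ` has a nontrivial zero: otherwise the function fields of all
subvarieties of `f = 0` contain new constants (`κ` is pseudo algebraically closed), the Hilbert
series of all graded quotients of the coordinate ring are polynomials modulo `ℓ`, and a comparison
of the orders of vanishing at `T = 1` of `∏ (1 - T ^ e_j)` and `∏ (1 - T ^ w_i)` modulo `ℓ` gives
a contradiction.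

Co-authors: helper34, helper146, helper177, helper210, helper225.
-/

namespace Pool.Agent.Results.MP_1ad228_nt.PrimeToLZeros

open MvPolynomial

/-- The degrees of the finite extensions of `K` over which the system `f` has a nontrivial common
zero. The greatest common divisor of these numbers is the index of the variety `f = 0`. -/
def Degrees {ι κ K : Type} [Field K] (f : κ → MvPolynomial ι K) : Set ℕ :=
  {δ | ∃ (L : Type) (_ : Field L) (_ : Algebra K L), FiniteDimensional K L ∧
    Module.finrank K L = δ ∧ ∃ x : ι → L, x ≠ 0 ∧ ∀ j, aeval x (f j) = 0}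

/-- The `ℓ`-part of `a`. -/
def part (ℓ a : ℕ) : ℕ := ℓ ^ a.factorization ℓ

theorem systems (F : Type) [Field F] [Finite F] (k : Type) [Field k] [Algebra (RatFunc F) k]
    [FiniteDimensional (RatFunc F) k] (ι κ : Type) [Fintype ι] [Fintype κ] (w : ι → ℕ)
    (e : κ → ℕ) (f : κ → MvPolynomial ι k) (hw : ∀ i, 0 < w i) (he : ∀ j, 0 < e j)
    (hf : ∀ j, IsWeightedHomogeneous w (f j) (e j)) (ℓ : ℕ) (hℓ : ℓ.Prime)
    (hlt : ∑ j, e j * part ℓ (e j) < ∑ i, w i * part ℓ (w i)) :
    ∃ δ ∈ Degrees f, ¬ ℓ ∣ δ := by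
  haveI : Fact ℓ.Prime := ⟨hℓ⟩
  obtain ⟨p, hchar⟩ := CharP.exists F
  haveI : Fact p.Prime := ⟨CharP.char_is_prime F p⟩
  letI : Algebra (ZMod p) F := ZMod.algebra F p
  obtain ⟨L, _, _, hfin, hdeg, x, hx, hx2⟩ := Pool.Agent.Q146.TL.Cst.cst
    Pool.Agent.Q177.TL.Alg.alg Pool.Agent.Q146.TL.Tr.tr
    (fun d => ℓ ^ d.factorization ℓ) ℓ F (by
      intro κ _ _ halg hκ
      letI : Algebra (ZMod p) κ := ((algebraMap F κ).comp (algebraMap (ZMod p) F)).toAlgebra
      haveI : IsScalarTower (ZMod p) F κ := IsScalarTower.of_algebraMap_eq fun _ => rfl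
      haveI : Algebra.IsAlgebraic (ZMod p) κ := Algebra.IsAlgebraic.trans (ZMod p) F κ
      exact Pool.Agent.Q49.TL.s_TK Pool.Agent.Q177.TL.Line.line p ℓ κ inferInstance hκ)
    k ι κ w e f hw he hf hlt
  exact ⟨_, ⟨L, inferInstance, inferInstance, hfin, rfl, x, hx, hx2⟩, hdeg⟩

theorem result (F : Type) [Field F] [Finite F] (k : Type) [Field k] [Algebra (RatFunc F) k]
    [FiniteDimensional (RatFunc F) k] (ι κ : Type) [Fintype ι] [Fintype κ] (w : ι → ℕ)
    (e : κ → ℕ) (f : κ → MvPolynomial ι k) (hw : ∀ i, 0 < w i) (he : ∀ j, 0 < e j)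
    (hf : ∀ j, IsWeightedHomogeneous w (f j) (e j)) :
    (∀ ℓ : ℕ, ℓ.Prime → ∑ j, e j * part ℓ (e j) < ∑ i, w i * part ℓ (w i) →
      ∃ δ ∈ Degrees f, ¬ ℓ ∣ δ) ∧
    ((∀ ℓ : ℕ, ℓ.Prime → ∑ j, e j * part ℓ (e j) < ∑ i, w i * part ℓ (w i)) →
      ∀ m : ℕ, (∀ δ ∈ Degrees f, m ∣ δ) → m = 1) := by
  have h1 := systems F k ι κ w e f hw he hf
  refine ⟨h1, fun h m hm => ?_⟩
  by_contra hm1
  obtain ⟨ℓ, hℓ, hℓm⟩ := Nat.exists_prime_and_dvd hm1
  obtain ⟨δ, hδ, hδ2⟩ := h1 ℓ hℓ (h ℓ hℓ)
  exact hδ2 (hℓm.trans (hm δ hδ))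

end Pool.Agent.Results.MP_1ad228_nt.PrimeToLZeros
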