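import Pool.Agent.Q52.SecY.Loc
import Pool.Agent.Q52.SecX.Irr

/-!
# Zero-cycles of degree one on 100% of the cyclic covers `a wⁿ = f_1(x_1) ⋯ f_r(x_r)`

Let `K` be a number field, `r ≥ 1` and `d_1, …, d_r ≥ 3` integers with a common prime divisor `ℓ`.
For vectors `y = (a, f_1, …, f_r)` of integers of `K`, where `f_i` stands for the `d_i + 1`
coefficients of a polynomial of degree `d_i`, and `n ≥ 1` divisible by `ℓ`, let `X` be a smooth
projective model of the variety of dimension `r`

  `a wⁿ = f_1(x_1) ⋯ f_r(x_r)`,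

a cyclic cover of the product of `r` projective lines.  For `r = 1` these are the superelliptic
curves of degree `d` (`gcd(n, d) > 1`), for `r = 2`, `d_1 = d_2 = 4`, `n = 2` the Kummer surfaces
`a w² = f(x) g(z)` studied by Skorobogatov and Swinnerton-Dyer, for all `d_i = 4`, `n = 2`
Calabi-Yau varieties, and for even `d_i ≥ 6`, `n = 2` varieties of general type.

We prove, for every `M`: for all vectors `y` outside a set of density zero, `a ≠ 0`, all the `f_i` are
irreducible over `K`, and there are `M` primes `v` of `K` such that for every prime `ℓ` that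
divides all `d_i` and every `n` divisible by `ℓ` all points of the variety over finite extensions `E`
of the completion `K_v` have degree `[E : K_v]` divisible by `ℓ`.  So `ℓ` divides the degrees of
all zero-cycles on `X` over `K_v` (the points of a smooth variety over a local field `E` are dense for
the Zariski topology if there are any).  In particular there is no family of local zero-cycles of
degree one, and the statement of Q1 is true for all these `X`, and for all smooth projective
varieties that dominate them; also over all finite extensions of `K` of degree prime to `ℓ`.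

Density zero is meant in the strong sense: for every `ε > 0` there is an ideal `I ≠ 0` of the ring
of integers `R` such that the exceptional vectors lie in at most `ε #(R/I) ^ N` residue classes
modulo `I`, where `N = 1 + ∑ (d_i + 1)` is the number of coefficients.

Proof.  Let `v` be a prime such that `a` is divisible by `v` exactly once and all `f_i` are
irreducible of degree `d_i` modulo `v`.  The proportion of these vectors is at least
`(1/N v - 1/(N v)²) ∏ 1/(4 d_i)`.  The sum of the `1/N v` diverges, so almost all vectors have this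
property for `M` primes `v`.  Let `E` be an extension of `K_v` of degree prime to `ℓ`; its
ramification index `e` and its residue degree are prime to `ℓ`.  So the `f_i` have no root in the
residue field of `E` and all their values at elements of `E` have valuation divisible by `ℓ`, but the
valuation of `a wⁿ` is `e` modulo `ℓ`.
-/

open Polynomial NumberField IsDedekindDomain

namespace Pool.Agent.Results.MP_1ad228_nt.ProductCovers

/-- the index set of the coefficients of `(a, f_1, …, f_r)`, `deg f_i = d i`: `none` for `a`, and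
`some ⟨i, j⟩` for the coefficient of `x ^ j` in `f_i` -/
abbrev Idx {r : ℕ} (d : Fin r → ℕ) : Type := Option (Σ i : Fin r, Fin (d i + 1))

/-- the polynomial `f_i` of the vector `y` -/
noncomputable def poly {K : Type} [Field K] [NumberField K] {r : ℕ} {d : Fin r → ℕ}
    (y : Idx d → 𝓞 K) (i : Fin r) : K[X] :=
  ∑ j : Fin (d i + 1), C (algebraMap (𝓞 K) K (y (some ⟨i, j⟩))) * X ^ (j : ℕ)

/-- the variety `a wⁿ = ∏ f_i(x_i)` has a point over `E`, where `φ : K → E` -/
def HasPoint {K E : Type} [Field K] [NumberField K] [Field E] (n : ℕ) {r : ℕ} {d : Fin r → ℕ}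
    (y : Idx d → 𝓞 K) (φ : K →+* E) : Prop :=
  ∃ (x : Fin r → E) (w : E), φ (algebraMap (𝓞 K) K (y none)) * w ^ n =
    ∏ i, eval₂ φ (x i) (poly y i)

/-- for all finite extensions `E` of the completion `K_v` over which the variety `a wⁿ = ∏ f_i(x_i)`
has a point, the degree `[E : K_v]` is divisible by `ℓ` -/
def LocalDegreesDivisible {K : Type} [Field K] [NumberField K] (ℓ n : ℕ) {r : ℕ} {d : Fin r → ℕ}
    (y : Idx d → 𝓞 K) (v : HeightOneSpectrum (𝓞 K)) : Prop :=
  ∀ (E : Type) [Field E] [Algebra (v.adicCompletion K) E]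
    [FiniteDimensional (v.adicCompletion K) E],
    HasPoint n y ((algebraMap (v.adicCompletion K) E).comp (algebraMap K (v.adicCompletion K))) →
      ℓ ∣ Module.finrank (v.adicCompletion K) E

/-- the exceptional vectors -/
def Exceptional (K : Type) [Field K] [NumberField K] {r : ℕ} (d : Fin r → ℕ) (M : ℕ) :
    Set (Idx d → 𝓞 K) :=
  {y | ¬ (y none ≠ 0 ∧ (∀ i, (poly y i).natDegree = d i ∧ Irreducible (poly y i)) ∧
    ∃ T : Finset (HeightOneSpectrum (𝓞 K)), M ≤ T.card ∧ ∀ v ∈ T, ∀ ℓ : ℕ, ℓ.Prime →
      (∀ i, ℓ ∣ d i) → ∀ n : ℕ, n ≠ 0 → ℓ ∣ n → LocalDegreesDivisible ℓ n y v)}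

/-- for every `ε > 0` the set `S` of vectors lies in at most `ε #(R/I) ^ |ι|` residue classes modulo
some nonzero ideal `I` of the ring of integers `R` of `K` -/
def DensityZero {K ι : Type} [Field K] [NumberField K] [Fintype ι] (S : Set (ι → 𝓞 K)) : Prop :=
  ∀ ε : ℝ, 0 < ε → ∃ I : Ideal (𝓞 K), I ≠ ⊥ ∧ Finite (𝓞 K ⧸ I) ∧
    (Set.ncard ((fun (y : ι → 𝓞 K) i => Ideal.Quotient.mk I (y i)) '' S) : ℝ) ≤
      ε * (Nat.card (𝓞 K ⧸ I) : ℝ) ^ (Fintype.card ι)

theorem result (K : Type) [Field K] [NumberField K] (r : ℕ) (d : Fin r → ℕ) (hd : ∀ i, 3 ≤ d i)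
    (M : ℕ) : DensityZero (Exceptional K d M) := by
  classical
  intro ε hε
  obtain ⟨I, hI, hfin, hcard⟩ := Pool.Agent.Q52.SecY.many_good (K := K) d hd (M + 1) ε hε
  refine ⟨I, hI, hfin, le_trans ?_ hcard⟩
  have hsub : Exceptional K d M ⊆
      {y : Pool.Agent.Q52.SecY.Idx d → 𝓞 K | ¬ ∃ T : Finset (HeightOneSpectrum (𝓞 K)),
        T.card = M + 1 ∧ ∀ v ∈ T, (fun o => Ideal.Quotient.mk (v.asIdeal ^ 2) (y o)) ∈
          Pool.Agent.Q52.SecY.GoodM v d} := by
    intro y hy
    rintro ⟨T, hTc, hT⟩
    apply hy
    obtain ⟨v₀, hv₀⟩ : T.Nonempty := by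
      rw [← Finset.card_pos, hTc]
      omega
    obtain ⟨h1, h2, h3⟩ := Pool.Agent.Q52.SecY.good_iff' v₀ d y (hT v₀ hv₀)
    have hinj : Function.Injective (algebraMap (𝓞 K) K) := IsFractionRing.injective (𝓞 K) K
    have hlast : ∀ i, y (some ⟨i, Fin.last (d i)⟩) ≠ 0 := by
      intro i h
      apply (h3 i).1
      rw [h]
      exact zero_mem _
    have hpoly : ∀ i, poly y i = Pool.Agent.TH377.Sup.pol
        (fun j => algebraMap (𝓞 K) K (y (some ⟨i, j⟩))) := fun i => rfl
    refine ⟨?_, fun i => ⟨?_, ?_⟩, T, by omega, ?_⟩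
    · intro h
      apply h2
      rw [h]
      exact zero_mem _
    · rw [hpoly]
      apply Pool.Agent.TH377.Sup.pol_natDegree
      rw [Ne, map_eq_zero_iff _ hinj]
      exact hlast i
    · rw [hpoly, ← Pool.Agent.TH377.Sup.pol_map]
      refine Pool.Agent.Q52.SecX.irr_of_red v₀ (Pool.Agent.TH377.Sup.pol
        fun j => y (some ⟨i, j⟩)) ?_ (h3 i).2
      rw [Pool.Agent.TH377.Sup.pol_leadingCoeff (fun j => y (some ⟨i, j⟩)) (hlast i)]
      exact (h3 i).1
    · intro v hv ℓ hℓ hℓd n hn0 hn E _ _ _ hpt
      obtain ⟨x, w, hxw⟩ := hpt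
      by_contra hcon
      exact Pool.Agent.Q52.SecY.no_cycle_compl v d y (hT v hv) ℓ hℓ hℓd n hn hn0 E hcon x w hxw
  have := Set.ncard_le_ncard (Set.image_mono (f := fun (y : Idx d → 𝓞 K) i =>
    Ideal.Quotient.mk I (y i)) hsub) (Set.toFinite _)
  exact_mod_cast this

end Pool.Agent.Results.MP_1ad228_nt.ProductCovers
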