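import Pool.Agent.Q51.ZC.KZer5

/-!
# The Brauer-Manin obstruction for zero-cycles on the twists of Fermat curves

Let `n` be odd, `1 < m`, `m ∣ n`, let `a, b` be integers such that `a X ^ n + b` is irreducible over `ℚ`, and let
`C_D : D y ^ m = a x ^ n + b w ^ n`, a smooth curve in the weighted projective plane of weights `(1, 1, n/m)` (for
`m = n` the twists of a Fermat curve; for `m = n = 3` curves of genus one).

**Theorem.** For 100 percent of the everywhere locally soluble curves `C_D` with squarefree `D` (all but
`C (log X)^(-δ) E(X)`, if `E(X)` is the number of them with `|D| ≤ X`) the degrees of all closed points are divisible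
by all prime factors of `m`, so for squarefree `m` the index is exactly `m`, although there are points over all
completions of `ℚ`.  Moreover this is explained by the Brauer-Manin obstruction: for every prime `q ∣ m`, every
number field `K` of a degree prime to `q` and every `d` prime to `q` no family of zero-cycles over the completions of
`K` of degrees congruent to `d` modulo `q` (for example `d = 1`) is orthogonal to the restrictions of the following
classes `A_χ` of the Brauer group of `C_D` to `(C_D)_K`.

Let `L = ℚ[X]/(a X ^ q + b) = ℚ(θ)`.  For a character `χ` of order `q` of the idele class group of `L` which is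
trivial on the ideles of `ℚ` (a homomorphism `χ : Gal(L) → ℤ/q` with trivial corestriction to `ℚ`) we put
`A_χ = Cor_{L/ℚ} (χ, x ^ (n/q) - θ w ^ (n/q))`.  The zeros of `x ^ (n/q) - θ w ^ (n/q)` on `C_D` have multiplicities
divisible by `q` (the norm from `L` to `ℚ` is `D y ^ m / a`), so `A_χ` is unramified.  The local invariant at a closed
point over `ℚ_p` with the coordinates in the field `M` is `χ_p` of the norm of `x ^ (n/q) - θ w ^ (n/q)` from `M ⊗ L`
to `ℚ_p ⊗ L`, that of a closed point over `K_v` is the one of its direct image over `ℚ_p`.

So the assertion of the problem, for zero-cycles of degree one and for all degrees prime to one of the prime factors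
of `m`, holds for all these `(C_D)_K`, unconditionally: neither local zero-cycles without obstruction nor global ones
exist.

The definitions are in `Pool/Agent/Q51/ZC/Zer.lean` (over `ℚ`), `Pool/Agent/Q51/ZC/KZer.lean` (over number fields)
and `Pool/Agent/Q51/ZC/Zer4.lean`, `Pool/Agent/Q51/ZC/KZer3.lean` (`numLocSoluble`, `numExceptional`).

Proof.  The direct image of a family over the completions of `K` is a family over the `ℚ_p`, so let `K = ℚ`, and let
the degree be `≡ 1` modulo `q`.  By duality there is a `δ ∈ L^*` which agrees with the values of the family modulo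
rational numbers and `q`-th powers at finitely many bad primes, and up to units at the other primes not dividing
`D`.  At a prime `l ∣ D` its valuations `M_v`, `v ∣ l`, satisfy `∑ f_v M_v ≡ 1` modulo `q`, and the residue classes
of `δ` modulo `q`-th powers are determined by the `M_v` up to two rational parameters: the values at closed points
`P` with `x/w` near a root of `a X ^ n + b`, and their norms, are computed in the algebraic closure of `ℚ_l` with
Teichmüller representatives.  Let `D = ± d m' p` with a large prime `p` above which `L` has two primes, of degrees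
`1` and `q - 1`.  For given `m'` and valuations above `m'` the `δ` belong, up to boundedly many classes, to integers
`γ` of `L` with conjugates at most `C p ^ (1/q)` which lie in a fixed coset of a subgroup of index at least
`q ^ (g - 2)` or `q ^ (g - 1)` of `(𝓞/l)^*` for `l ∣ m'`, `g` the number of the primes above `l`; by the large sieve in
dimension `q` there are few.  The number of the possible valuations is smaller than the product of these indices by
a factor `q` at many primes, which gives the factor `(log X) ^ (-δ)`.  The lower bound for `E(X)` is in the projects EL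
and EB.

(helper51, with lemmas of helper38, helper86, helper92, helper150, helper190, helper195, helper210, helper241,
helper257, helper299, and for the projects SE, EL and EB of helper26, helper38, helper52, helper58, helper65,
helper68, helper91, helper154, helper187, helper198, helper210, helper239, helper241, helper247, helper251,
helper277.)
-/

set_option autoImplicit false

namespace Pool.Agent.Results.MP_1ad228_nt.ZeroCyclesOnFermatTwists

open Polynomial Pool.Agent.Q51.ZC
open Pool.Agent.Q51.SE (ClassCharacter)

theorem result (a b : ℤ) (n m : ℕ) (hn : Odd n) (hm : 1 < m) (hmn : m ∣ n)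
    (hirr : Irreducible (C (a : ℚ) * X ^ n + C (b : ℚ))) :
    (∃ δ C : ℝ, 0 < δ ∧ ∀ X : ℝ, 3 ≤ X →
      numExceptional a b n m X ≤ C * Real.log X ^ (-δ) * numLocSoluble a b n m X) ∧
    ((∃ D : ℤ, Squarefree D ∧ Soluble a b n m D) → ∃ c X₀ : ℝ, 0 < c ∧ ∀ X : ℝ, X₀ ≤ X →
      c * X / Real.log X * Real.exp (sumRoots a b n X) ≤ numLocSoluble a b n m X) ∧
    (∀ D : ℤ, D ≠ 0 → Squarefree m → ¬ IndexNotDivisible a b n m D →
      (∀ (K : Type) [Field K] [NumberField K], CPoint a b n m D K → m ∣ Module.finrank ℚ K) ∧
      ∃ (K : Type) (_ : Field K) (_ : NumberField K), Module.finrank ℚ K = m ∧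
        Nonempty (CPoint a b n m D K)) ∧
    ∀ D : ℤ, D ≠ 0 → ∀ q : ℕ, q.Prime → q ∣ m →
      (∀ p : Nat.Primes, ClosedInvariantsWellDefined a b n m D q p) ∧
      (∀ (z : ∀ p : Nat.Primes, ZeroCycle a b n m D p) (χ : ClassCharacter (fq a b q) q),
        {p : Nat.Primes | (z p).inv χ ≠ 0}.Finite) ∧
      ∀ (K : Type) [Field K] [NumberField K],
        (∀ (z : ∀ (p : Nat.Primes) (v : PlacesAbove K p), ZeroCycleOver a b n m D K p v)
          (χ : ClassCharacter (fq a b q) q), {p : Nat.Primes | ∃ v, (z p v).inv χ ≠ 0}.Finite) ∧
        (CPoint a b n m D K → HasOrthogonalFamilyOver a b n m D K q 1 ∧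
          HasOrthogonalFamily a b n m D q (Module.finrank ℚ K)) := by
  obtain ⟨h1, -, h3⟩ := main hn hm hmn hirr
  have hirr' := hirr
  rw [← fq_map] at hirr'
  have hn0 := hn.pos
  obtain ⟨ha, hb⟩ := fq_ne (by
    have := Nat.le_of_dvd hn0 hmn
    omega) hirr'
  refine ⟨main_over hn hm hmn hirr, h3, fun D hD hsq h =>
    index_eq hn0 (by omega) ha hsq hD h, fun D hD q hq hqm => ?_⟩
  obtain ⟨h4, h5, h6⟩ := h1 D hD q hq hqm
  have hf := fq_irr hn0 (hqm.trans hmn) hirr'
  exact ⟨h4, h5, fun K _ _ => ⟨fun z χ => fin_supp_over ha hq hn0 (hqm.trans hmn) hqm hf hD K z χ,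
    fun P => ⟨over_one (adelic_orthogonal ha hq hn0 (hqm.trans hmn) hqm hf hD K P), h6 K P⟩⟩⟩

end Pool.Agent.Results.MP_1ad228_nt.ZeroCyclesOnFermatTwists
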